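import Mathlib
import Pool.Agent.U462.Sh.ZInst

set_option autoImplicit false

/-!
# Cunningham chains of each length and the Hardy–Littlewood law
-/

namespace Pool.Agent.Results.MP_c183ae_nt.EachLengthIndependent

open Finset Filter
open scoped Topology
open Pool.Agent.U462.Sh.Law

/-- **The chains of each length are independent of all systems which contain no chain of that length.**
For every `k ≥ 1` there is a set `S` of rough numbers `≥ 2` which contains no chain with `k + 1` members,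
neither of the first kind (`2 ^ i (p + 1) - 1`, `i ≤ k`) nor of the second kind (`2 ^ i (p - 1) + 1`,
`i ≤ k`), with the uniform Hardy–Littlewood law for all systems of linear forms which contain neither
`k + 1` forms `2 ^ i (l + 1) - 1`, `i ≤ k`, nor `k + 1` forms `2 ^ i (l - 1) + 1`, `i ≤ k`; in particular
for the systems which give the chains with `k` members, and for all systems of at most `k` forms. -/
theorem result : ∀ k : ℕ, 1 ≤ k → ∃ S : Set ℕ, (∀ m ∈ S, 2 ≤ m ∧ Rough m) ∧
    (∀ p : ℕ, 1 ≤ p → (∃ i ≤ k, 2 ^ i * (p + 1) - 1 ∉ S) ∧ ∃ i ≤ k, 2 ^ i * (p - 1) + 1 ∉ S) ∧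
    Law S (fun L => ¬ (∃ a b : ℤ, ∀ i : ℕ, i ≤ k → (2 ^ i * a, 2 ^ i * (b + 1) - 1) ∈ L) ∧
      ¬ ∃ a b : ℤ, ∀ i : ℕ, i ≤ k → (2 ^ i * a, 2 ^ i * (b - 1) + 1) ∈ L) := by
  classical
  intro k _
  obtain ⟨S, h1, h2, h3⟩ := Pool.Agent.U462.Sh.pat
    {(range (k + 1)).image (fun i => (((2 : ℤ) ^ i, (2 : ℤ) ^ i - 1) : ℤ × ℤ)),
      (range (k + 1)).image fun i => (((2 : ℤ) ^ i, 1 - (2 : ℤ) ^ i) : ℤ × ℤ)} (by
    intro P hP
    rw [mem_insert, mem_singleton] at hP
    rcases hP with rfl | rfl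
    · refine ⟨mem_image.2 ⟨0, by simp, by simp⟩, ?_⟩
      intro l hl
      obtain ⟨i, _, rfl⟩ := mem_image.1 hl
      exact one_le_pow₀ (by norm_num)
    · refine ⟨mem_image.2 ⟨0, by simp, by simp⟩, ?_⟩
      intro l hl
      obtain ⟨i, _, rfl⟩ := mem_image.1 hl
      exact one_le_pow₀ (by norm_num))
  refine ⟨S, h1, ?_, Pool.Agent.U462.Sh.law_mono ?_ h3⟩
  · intro p hp
    constructor
    · by_contra hcon
      push Not at hcon
      apply h2 _ (mem_insert_self _ _) p
      intro l hl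
      obtain ⟨i, hi, rfl⟩ := mem_image.1 hl
      rw [mem_range] at hi
      refine ⟨_, hcon i (by omega), ?_⟩
      have h4 : 1 ≤ 2 ^ i * (p + 1) := Nat.one_le_iff_ne_zero.2 (by positivity)
      rw [Nat.cast_sub h4]
      push_cast
      ring
    · by_contra hcon
      push Not at hcon
      apply h2 _ (mem_insert_of_mem (mem_singleton_self _)) p
      intro l hl
      obtain ⟨i, hi, rfl⟩ := mem_image.1 hl
      rw [mem_range] at hi
      refine ⟨_, hcon i (by omega), ?_⟩
      push_cast [Nat.cast_sub hp]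
      ring
  · intro L hL P hP
    rw [mem_insert, mem_singleton] at hP
    rcases hP with rfl | rfl
    · rintro ⟨l0, _, hall⟩
      apply hL.1
      refine ⟨l0.1, l0.2, fun i hi => ?_⟩
      have h4 := hall _ (mem_image.2 ⟨i, mem_range.2 (by omega), rfl⟩)
      have h5 : (2 : ℤ) ^ i * (l0.2 + 1) - 1 = 2 ^ i * l0.2 + (2 ^ i - 1) := by ring
      rw [h5]
      exact h4
    · rintro ⟨l0, _, hall⟩
      apply hL.2
      refine ⟨l0.1, l0.2, fun i hi => ?_⟩
      have h4 := hall _ (mem_image.2 ⟨i, mem_range.2 (by omega), rfl⟩)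
      have h5 : (2 : ℤ) ^ i * (l0.2 - 1) + 1 = 2 ^ i * l0.2 + (1 - 2 ^ i) := by ring
      rw [h5]
      exact h4

end Pool.Agent.Results.MP_c183ae_nt.EachLengthIndependent
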