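import Pool.Agent.U163.SU.Uni

/-!
# Strings of consecutive primes whose Cunningham chains have almost primes at arbitrarily far positions

The terms of the Cunningham chain of the first (second) kind which starts at `p` are `2 ^ i (p + 1) - 1`
(`2 ^ i (p - 1) + 1`), `i = 0, 1, …`. The question is whether for every `k` some chain begins with `k` primes.
Here the first term is prime, the terms at `k` ARBITRARY positions `i_1, …, i_k`, up to any multiple of
`log p`, are almost primes (a bounded number of prime factors, all larger than a power of `p`; the bound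
depends on the multiple, not on the positions), and the primes `p` form strings of `m` consecutive primes:
uniformly in the positions, for both kinds, a positive proportion of the patterns `H` of `m` elements of any given
large finite set are patterns of consecutive primes `p + h`, `h ∈ H`, of this kind, each for at least
`x / (log x) ^ B` of the `p` in `(x, 2 x]`. In fact the powers of `2` are replaced by arbitrary factors
`1 ≤ c_j ≤ x ^ A`; there is no local condition.

Proof. The theorem `R498.MP.stringsUR` of the starting library (Maynard-Tao theorem for strings of consecutive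
primes with almost prime polynomial values, uniformly in the polynomial) is applied to
`∏ (c_j (X + e) - e)`; there is no local obstruction since all factors are `- e = ± 1` at `X = - e`. The proportion
of the patterns follows by double counting (`Helper32K9.Str`).
-/

set_option autoImplicit false

namespace Pool.Agent.Results.MP_c183ae_nt.FarPositions

open Finset Filter Polynomial

/-- `n` has at most `R` prime factors, counted with multiplicity, all of them at least `w`. -/
def AlmostPrime (R : ℕ) (w : ℝ) (n : ℕ) : Prop :=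
  n.primeFactorsList.length ≤ R ∧ ∀ p : ℕ, p.Prime → p ∣ n → w ≤ p

/-- The integer `c (n + e) - e`; for `c = 2 ^ i` it is the term number `i` (the start is number `0`) of the chain of
the first (`e = 1`) or second (`e = -1`) kind which starts at `n`. -/
def term (e : ℤ) (c n : ℕ) : ℤ := (c : ℤ) * ((n : ℤ) + e) - e

/-- The integers `n` with `x < n`, `n + max H ≤ 2 x`, such that the primes in the interval `[n, n + max H]` are
exactly the numbers `n + h`, `h ∈ H`, all of them are `≡ a` modulo `q`, and for each of them, `p = n + h`, and all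
`j` the integer `c_j (p + e) - e` is positive and has at most `R` prime factors, all of them at least `x ^ δ`. -/
def places {k : ℕ} (e : ℤ) (c : Fin k → ℕ) (x q a R : ℕ) (δ : ℝ) (H : Finset ℕ) : Set ℕ :=
  {n | x < n ∧ n + H.sup id ≤ 2 * x ∧ (∀ y ≤ H.sup id, (n + y).Prime ↔ y ∈ H) ∧
    ∀ h ∈ H, n + h ≡ a [MOD q] ∧ ∀ j, 0 < term e (c j) (n + h) ∧
      AlmostPrime R ((x : ℝ) ^ δ) (term e (c j) (n + h)).natAbs}

/-- the polynomial -/
noncomputable def fam (e : ℤ) (c : ℕ) : ℤ[X] := C (c : ℤ) * (X + C e) - C e

theorem fam_eval (e : ℤ) (c : ℕ) (x : ℤ) : (fam e c).eval x = c * (x + e) - e := by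
  unfold fam
  simp

theorem fam_deg (e : ℤ) (c : ℕ) : (fam e c).natDegree ≤ 1 := by
  unfold fam
  refine (natDegree_sub_le _ _).trans (max_le ?_ ?_)
  · refine (natDegree_C_mul_le _ _).trans ((natDegree_add_le _ _).trans (max_le natDegree_X_le ?_))
    rw [natDegree_C]
    omega
  · rw [natDegree_C]
    omega

/-- the defining recursions of the two kinds of chains -/
theorem term_chain (i n : ℕ) :
    term 1 (2 ^ 0) n = n ∧ term 1 (2 ^ (i + 1)) n = 2 * term 1 (2 ^ i) n + 1 ∧
      term (-1) (2 ^ 0) n = n ∧ term (-1) (2 ^ (i + 1)) n = 2 * term (-1) (2 ^ i) n - 1 := by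
  unfold term
  push_cast
  refine ⟨by ring, by ring, by ring, by ring⟩

/-- **Strings of consecutive primes with almost primes at arbitrary positions of their Cunningham chains.** Let `k`,
`m ≥ 1` be given and let `q` be squarefree. There are `K`, `B` and `δ > 0` such that for every `A` there is an `R`
such that for every finite set `T` of at least `K` nonnegative integers and all large `x` the following holds for
both signs `e` and ALL `1 ≤ c_1, …, c_k ≤ x ^ A` and all `a` for which `a` and all the `c_j (a + e) - e` are prime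
to `q` (for instance `q = 1`, or `a ≡ - e` modulo `q`): for at least the proportion `1 / K` of the subsets `H` of `T`
with `m` elements there are at least `x / (log x) ^ B` integers `n`, `x < n`, `n + max H ≤ 2 x`, such that the
primes in `[n, n + max H]` are exactly the numbers `n + h`, `h ∈ H`, all of them are `≡ a` modulo `q`, and for each
of them, `p = n + h`, all the `c_j (p + e) - e` have at most `R` prime factors, all of them at least `x ^ δ`. -/
theorem result (k m : ℕ) (hm : 1 ≤ m) (q : ℕ) (hq : Squarefree q) :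
    (∃ (K B : ℕ) (δ : ℝ), 0 < K ∧ 0 < δ ∧ ∀ A : ℕ, ∃ R : ℕ, ∀ T : Finset ℕ, K ≤ T.card →
      ∀ᶠ x : ℕ in atTop, ∀ e : ℤ, (e = 1 ∨ e = -1) → ∀ c : Fin k → ℕ, (∀ j, 1 ≤ c j ∧ c j ≤ x ^ A) →
      ∀ a : ℕ, a.Coprime q → (∀ j, IsCoprime (term e (c j) a) (q : ℤ)) →
      T.card.choose m ≤ K * {H : Finset ℕ | H ⊆ T ∧ H.card = m ∧
        (x : ℝ) / Real.log x ^ B ≤ (places e c x q a R δ H).ncard}.ncard) ∧
    ∀ i n : ℕ, term 1 (2 ^ 0) n = n ∧ term 1 (2 ^ (i + 1)) n = 2 * term 1 (2 ^ i) n + 1 ∧
      term (-1) (2 ^ 0) n = n ∧ term (-1) (2 ^ (i + 1)) n = 2 * term (-1) (2 ^ i) n - 1 := by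
  classical
  refine ⟨?_, term_chain⟩
  obtain ⟨K, B, δ, hK, hδ, hmain⟩ := Pool.Agent.U163.SU.uni_prod k 1 q hq m hm
  refine ⟨K, B, δ, hK, hδ, fun A => ?_⟩
  obtain ⟨R, hR⟩ := hmain (A + 1 + 3)
  refine ⟨R, fun T hT => ?_⟩
  filter_upwards [hR T hT, eventually_ge_atTop 3] with x hx hx3
  intro e he c hc a ha hac
  have hx3' : (3 : ℤ) ≤ x := by exact_mod_cast hx3
  have heabs : |e| = 1 := by rcases he with rfl | rfl <;> simp
  have hA1 : (1 : ℤ) ≤ (x : ℤ) ^ (A + 1) := one_le_pow₀ (by linarith)
  have hcA : ∀ j, (c j : ℤ) + 1 ≤ (x : ℤ) ^ (A + 1) := by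
    intro j
    have h1 : (c j : ℤ) ≤ (x : ℤ) ^ A := by exact_mod_cast (hc j).2
    have h2 : (1 : ℤ) ≤ (x : ℤ) ^ A := one_le_pow₀ (by linarith)
    calc (c j : ℤ) + 1 ≤ (x : ℤ) ^ A + (x : ℤ) ^ A := by linarith
      _ ≤ (x : ℤ) ^ A * x := by nlinarith
      _ = (x : ℤ) ^ (A + 1) := by rw [pow_succ]
  refine (hx (fun j => fam e (c j)) (fun j => fam_deg _ _)
    (fun p hp => by
      refine ⟨-e, fun h => ?_, fun j h => ?_⟩
      · rcases he with rfl | rfl
        · exact hp.one_lt.ne' (by
            have := Int.natAbs_dvd_natAbs.2 h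
            simpa using this)
        · exact hp.one_lt.ne' (by
            have := Int.natAbs_dvd_natAbs.2 h
            simpa using this)
      · rw [fam_eval] at h
        rcases he with rfl | rfl
        · exact hp.one_lt.ne' (by
            have := Int.natAbs_dvd_natAbs.2 h
            simpa using this)
        · exact hp.one_lt.ne' (by
            have := Int.natAbs_dvd_natAbs.2 h
            simpa using this))
    (fun j y hy => by
      rw [fam_eval]
      refine Pool.Agent.U163.SU.quad_le hx3 (c := (c j : ℤ)) (d := (c j : ℤ) + 1) (by positivity)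
        (by positivity) (by linarith [hcA j]) (hcA j) ?_
      calc |(c j : ℤ) * (y + e) - e| ≤ |(c j : ℤ) * (y + e)| + |e| := abs_sub _ _
        _ = (c j : ℤ) * |y + e| + 1 := by rw [abs_mul, Nat.abs_cast, heabs]
        _ ≤ (c j : ℤ) * (|y| + |e|) + 1 := by gcongr; exact abs_add_le _ _
        _ ≤ (c j : ℤ) * (2 * x + 1) + 1 := by rw [heabs]; gcongr
        _ = (c j : ℤ) * (2 * x) + ((c j : ℤ) + 1) := by ring)
    (fun j y hy0 _ => by
      rw [fam_eval]
      intro h0
      have h1 : (c j : ℤ) * (y + e) = e := by linarith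
      have h2 : (c j : ℤ) ∣ e := ⟨y + e, h1.symm⟩
      have h3 : (c j : ℤ) = 1 := by
        have h4 : (c j : ℤ) ∣ 1 := by
          rcases he with rfl | rfl
          · exact h2
          · exact (dvd_neg.2 h2 : (c j : ℤ) ∣ -(-1))
        have h5 : (0 : ℤ) ≤ c j := by positivity
        exact Int.eq_one_of_dvd_one h5 h4
      rw [h3] at h1
      exact hy0 (by linarith))
    a (fun p hp hpq => by
      refine ⟨fun h => ?_, fun j h => ?_⟩
      · have h1 := Nat.dvd_gcd (Int.natCast_dvd_natCast.1 h) hpq
        rw [ha] at h1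
        exact hp.one_lt.ne' (Nat.dvd_one.1 h1)
      · rw [fam_eval] at h
        have h1 : (p : ℤ) ∣ (q : ℤ) := Int.natCast_dvd_natCast.2 hpq
        have h2 := (hac j).isUnit_of_dvd' h h1
        rw [Int.isUnit_iff_natAbs_eq, Int.natAbs_natCast] at h2
        exact hp.one_lt.ne' h2)).trans (Nat.mul_le_mul_left _ ?_)
  have heq : ∀ H, Pool.Agent.U163.SU.placesP (fun j => fam e (c j)) x q a R δ H ⊆
      places e c x q a R δ H := by
    rintro H n ⟨h1, h2, h3, h4⟩
    refine ⟨h1, h2, h3, fun h hh => ⟨(h4 h hh).1, fun j => ?_⟩⟩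
    have h5 := ((h4 h hh).2 j).2
    rw [fam_eval] at h5
    refine ⟨?_, h5⟩
    unfold term
    have hn : (3 : ℤ) < ((n + h : ℕ) : ℤ) := by
      have : (x : ℤ) < n := by exact_mod_cast h1
      push_cast
      have h0 : (0 : ℤ) ≤ h := by positivity
      linarith
    have hcj : (1 : ℤ) ≤ c j := by exact_mod_cast (hc j).1
    rcases he with rfl | rfl
    · nlinarith
    · nlinarith
  have hfin : ∀ P : Finset ℕ → Prop, {H : Finset ℕ | H ⊆ T ∧ H.card = m ∧ P H}.Finite := by
    intro P
    apply (T.powersetCard m).finite_toSet.subset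
    rintro H ⟨h1, h2, -⟩
    exact Finset.mem_coe.2 (Finset.mem_powersetCard.2 ⟨h1, h2⟩)
  apply Set.ncard_le_ncard _ (hfin _)
  rintro H ⟨h1, h2, h3⟩
  refine ⟨h1, h2, h3.trans (Nat.cast_le.2 (Set.ncard_le_ncard (heq H) ?_))⟩
  refine (Set.finite_Iic (2 * x)).subset fun y hy => ?_
  have h1 : y + H.sup id ≤ 2 * x := hy.2.1
  rw [Set.mem_Iic]
  omega

end Pool.Agent.Results.MP_c183ae_nt.FarPositions
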