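import Mathlib
import Pool.Agent.U98.TZ.B4

set_option autoImplicit false

/-!
# The kinds of consecutive almost prime Cunningham chains

Call an integer rough at the level `w` if it has no prime factors `p ≤ w`. A chain of the first kind of length `k` at
`n` consists of the rough numbers `n`, `2 n + 1`, `4 n + 3`, ..., `2 ^ (k - 1) (n + 1) - 1`, a chain of the second kind
of the rough numbers `n`, `2 n - 1`, `4 n - 3`, ..., `2 ^ (k - 1) (n - 1) + 1`. For every `k ≥ 2` all chains of both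
kinds are considered, in the order of `n`. Their kinds form a sequence of independent fair coins: for all `l` and `ε`
there is `K` such that for all large `w`, in ALL intervals of length `≥ w ^ K`, the `l + 1` kinds of consecutive chains
are asymptotically independent, with probabilities `1/2`, and independent of the `l` distances, which have the
exponential law. The second law gives the residues modulo any multiple `q` of `6`.
-/

namespace Pool.Agent.Results.MP_c183ae_nt.KindsOfChains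

open Finset

/-- `n` has no prime factors `p ≤ w` -/
def Rough (w n : ℕ) : Prop := ∀ p : ℕ, p.Prime → p ≤ w → ¬ p ∣ n

/-- A chain of the first kind of length `k` at `n`: the numbers `2 ^ i (n + 1) - 1`, `i < k` (that is `n`, `2 n + 1`,
`4 n + 3`, ...) are rough. -/
def First (w k n : ℕ) : Prop := ∀ i < k, Rough w (2 ^ i * (n + 1) - 1)

/-- A chain of the second kind of length `k` at `n`: the numbers `2 ^ i (n - 1) + 1`, `i < k` (that is `n`, `2 n - 1`,
`4 n - 3`, ...) are rough. -/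
def Second (w k n : ℕ) : Prop := 0 < n ∧ ∀ i < k, Rough w (2 ^ i * (n - 1) + 1)

/-- a chain of one of the two kinds at `n` -/
def Chain (w k n : ℕ) : Prop := First w k n ∨ Second w k n

/-- the next chain -/
noncomputable def next (w k n : ℕ) : ℕ := sInf {m | n < m ∧ Chain w k m}

/-- the number of the residue classes modulo `p` of the integers `n` for which `p` divides one of the `k` numbers of
the chain of the first kind at `n` -/
def omega (k p : ℕ) : ℕ := ((range p).filter (fun r => ∃ i < k, p ∣ 2 ^ i * (r + 1) - 1)).card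

/-- the density of the chains of both kinds -/
noncomputable def density (w k : ℕ) : ℝ :=
  1 / 3 * ∏ p ∈ (Icc 5 w).filter Nat.Prime, (1 - (omega k p : ℝ) / p)

/-- The number of the chains at `n ∈ (Z, Z + Y]` such that this chain and the next `l` chains have the kinds
`σ 0, ..., σ l` (`true` is the first kind) and the `l` distances are in `(s j, T j]`. -/
noncomputable def kindCount (w k l : ℕ) (σ : ℕ → Bool) (s T : ℕ → ℕ) (Z Y : ℕ) : ℕ :=
  Set.ncard {n : ℕ | Z < n ∧ n ≤ Z + Y ∧ Chain w k n ∧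
    (∀ j ≤ l, (First w k ((next w k)^[j] n) ↔ σ j = true)) ∧
    ∀ j < l, s j < (next w k)^[j + 1] n - (next w k)^[j] n ∧ (next w k)^[j + 1] n - (next w k)^[j] n ≤ T j}

/-- the possible residues modulo `q` of chains, for `6 ∣ q` -/
def residues (k q : ℕ) : Finset ℕ :=
  (range q).filter (fun b => (b % 6 = 5 ∧ ∀ i < k, Nat.Coprime (2 ^ i * (b + 1) - 1) q) ∨
    (b % 6 = 1 ∧ ∀ i < k, Nat.Coprime (2 ^ i * (b - 1) + 1) q))

/-- the density of the chains in terms of `q`, for `6 ∣ q` -/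
noncomputable def densityQ (w k q : ℕ) : ℝ :=
  (residues k q).card / (q : ℝ) *
    ∏ p ∈ (Icc 1 w).filter (fun p => p.Prime ∧ ¬ p ∣ q), (1 - (omega k p : ℝ) / p)

/-- The number of the chains at `n ∈ (Z, Z + Y]` such that `n` and the places of the next `l` chains are congruent to
`b 0, ..., b l` modulo `q` and the `l` distances are in `(s j, T j]`. -/
noncomputable def residueCount (w k q l : ℕ) (b s T : ℕ → ℕ) (Z Y : ℕ) : ℕ :=
  Set.ncard {n : ℕ | Z < n ∧ n ≤ Z + Y ∧ Chain w k n ∧ (∀ j ≤ l, (next w k)^[j] n % q = b j) ∧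
    ∀ j < l, s j < (next w k)^[j + 1] n - (next w k)^[j] n ∧ (next w k)^[j + 1] n - (next w k)^[j] n ≤ T j}

open Pool.Agent.U98.TY Pool.Agent.U98.TZ Pool.Agent.H373R2.T7

/-- the forms of the first kind -/
def FA (k : ℕ) : Finset (ℕ × ℤ) := (range k).image (fun i => (2 ^ i, (2 : ℤ) ^ i - 1))

/-- the forms of the second kind -/
def FB (k : ℕ) : Finset (ℕ × ℤ) := (range k).image (fun i => (2 ^ i, -((2 : ℤ) ^ i - 1)))

/-- the typed system -/
def F (k i : ℕ) : Finset (ℕ × ℤ) := if i % 6 = 5 then FA k else FB k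

lemma castA (i n : ℕ) : ((2 ^ i * (n + 1) - 1 : ℕ) : ℤ) = ((2 ^ i : ℕ) : ℤ) * n + ((2 : ℤ) ^ i - 1) := by
  have h : 1 ≤ 2 ^ i * (n + 1) := Nat.mul_pos (by positivity) (by omega)
  rw [Nat.cast_sub h]
  push_cast
  ring

lemma castB (i n : ℕ) (hn : 0 < n) :
    ((2 ^ i * (n - 1) + 1 : ℕ) : ℤ) = ((2 ^ i : ℕ) : ℤ) * n + -((2 : ℤ) ^ i - 1) := by
  obtain ⟨m, rfl⟩ : ∃ m, n = m + 1 := ⟨n - 1, by omega⟩
  rw [Nat.add_sub_cancel]
  push_cast
  ring

lemma forA (k p n : ℕ) : (∃ L ∈ FA k, (p : ℤ) ∣ (L.1 : ℤ) * n + L.2) ↔ ∃ i < k, p ∣ 2 ^ i * (n + 1) - 1 := by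
  unfold FA
  constructor
  · rintro ⟨L, hL, hd⟩
    rw [mem_image] at hL
    obtain ⟨i, hi, rfl⟩ := hL
    rw [mem_range] at hi
    refine ⟨i, hi, ?_⟩
    simp only at hd
    rw [← castA] at hd
    exact Int.natCast_dvd_natCast.1 hd
  · rintro ⟨i, hi, hd⟩
    refine ⟨_, mem_image.2 ⟨i, mem_range.2 hi, rfl⟩, ?_⟩
    simp only
    rw [← castA]
    exact Int.natCast_dvd_natCast.2 hd

lemma forB (k p n : ℕ) (hn : 0 < n) :
    (∃ L ∈ FB k, (p : ℤ) ∣ (L.1 : ℤ) * n + L.2) ↔ ∃ i < k, p ∣ 2 ^ i * (n - 1) + 1 := by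
  unfold FB
  constructor
  · rintro ⟨L, hL, hd⟩
    rw [mem_image] at hL
    obtain ⟨i, hi, rfl⟩ := hL
    rw [mem_range] at hi
    refine ⟨i, hi, ?_⟩
    simp only at hd
    rw [← castB i n hn] at hd
    exact Int.natCast_dvd_natCast.1 hd
  · rintro ⟨i, hi, hd⟩
    refine ⟨_, mem_image.2 ⟨i, mem_range.2 hi, rfl⟩, ?_⟩
    simp only
    rw [← castB i n hn]
    exact Int.natCast_dvd_natCast.2 hd

lemma nuB_FA (q k i p : ℕ) (hi : i % 6 = 5) (hpq : ¬ p ∣ q) : nuB (QL q (F k) i) p = omega k p := by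
  classical
  unfold nuB omega
  congr 1
  ext r
  rw [mem_filter, mem_filter, ← forA k p r]
  apply and_congr_right
  intro _
  unfold QL F
  rw [if_pos hi]
  exact ⟨fun h => h.2, fun h => ⟨hpq, h⟩⟩

lemma neg_mod (p r : ℕ) (hr : r < p) : ∃ t : ℤ, (((p - r) % p : ℕ) : ℤ) = -(r : ℤ) + p * t := by
  rcases Nat.eq_zero_or_pos r with h | h
  · subst h
    exact ⟨0, by simp⟩
  · refine ⟨1, ?_⟩
    rw [Nat.mod_eq_of_lt (by omega), Nat.cast_sub hr.le]
    ring

lemma nuB_FB (q k i p : ℕ) (hp : p.Prime) (hi : i % 6 ≠ 5) (hpq : ¬ p ∣ q) :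
    nuB (QL q (F k) i) p = omega k p := by
  classical
  unfold nuB omega
  have hdv : ∀ (a : ℕ) (b : ℤ) (r : ℕ), r < p →
      ((p : ℤ) ∣ (a : ℤ) * r + -b ↔ (p : ℤ) ∣ (a : ℤ) * (((p - r) % p : ℕ) : ℤ) + b) := by
    intro a b r hr
    obtain ⟨t, ht⟩ := neg_mod p r hr
    rw [ht]
    have e : (a : ℤ) * (-(r : ℤ) + p * t) + b = -((a : ℤ) * r + -b) + p * (a * t) := by ring
    rw [e, dvd_add_left (dvd_mul_right _ _), dvd_neg]
  have hB : ∀ r, r < p → ((∃ L ∈ FB k, (p : ℤ) ∣ (L.1 : ℤ) * r + L.2) ↔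
      ∃ L ∈ FA k, (p : ℤ) ∣ (L.1 : ℤ) * (((p - r) % p : ℕ) : ℤ) + L.2) := by
    intro r hr
    unfold FA FB
    constructor
    · rintro ⟨L, hL, hd⟩
      rw [mem_image] at hL
      obtain ⟨j, hj, rfl⟩ := hL
      exact ⟨_, mem_image.2 ⟨j, hj, rfl⟩, (hdv _ _ r hr).1 hd⟩
    · rintro ⟨L, hL, hd⟩
      rw [mem_image] at hL
      obtain ⟨j, hj, rfl⟩ := hL
      exact ⟨_, mem_image.2 ⟨j, hj, rfl⟩, (hdv _ _ r hr).2 hd⟩
  have hinv : ∀ r, r < p → (p - (p - r) % p) % p = r := by
    intro r hr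
    rcases Nat.eq_zero_or_pos r with h | h
    · subst h
      simp
    · rw [Nat.mod_eq_of_lt (show p - r < p by omega)]
      have : p - (p - r) = r := by omega
      rw [this, Nat.mod_eq_of_lt hr]
  apply Finset.card_nbij' (fun r => (p - r) % p) (fun r => (p - r) % p)
  · intro r hr
    rw [Finset.mem_coe, mem_filter, mem_range] at hr
    rw [Finset.mem_coe, mem_filter, mem_range, ← forA]
    refine ⟨Nat.mod_lt _ hp.pos, ?_⟩
    apply (hB r hr.1).1
    have h1 := hr.2
    unfold QL F at h1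
    rw [if_neg hi] at h1
    exact h1.2
  · intro r hr
    rw [Finset.mem_coe, mem_filter, mem_range, ← forA] at hr
    rw [Finset.mem_coe, mem_filter, mem_range]
    refine ⟨Nat.mod_lt _ hp.pos, ?_⟩
    unfold QL F
    rw [if_neg hi]
    refine ⟨hpq, ?_⟩
    apply (hB _ (Nat.mod_lt _ hp.pos)).2
    rw [hinv r hr.1]
    exact hr.2
  · intro r hr
    rw [Finset.mem_coe, mem_filter, mem_range] at hr
    exact hinv r hr.1
  · intro r hr
    rw [Finset.mem_coe, mem_filter, mem_range] at hr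
    exact hinv r hr.1

lemma nuB_F (q k i p : ℕ) (hp : p.Prime) (hpq : ¬ p ∣ q) : nuB (QL q (F k) i) p = omega k p := by
  by_cases hi : i % 6 = 5
  · exact nuB_FA q k i p hi hpq
  · exact nuB_FB q k i p hp hi hpq

lemma omega_lt (k p : ℕ) (hp : p.Prime) : omega k p < p := by
  unfold omega
  have h : ((range p).filter (fun r => ∃ i < k, p ∣ 2 ^ i * (r + 1) - 1)) ⊆ (range p).erase (p - 1) := by
    intro r hr
    rw [mem_filter] at hr
    rw [mem_erase]
    refine ⟨?_, hr.1⟩
    rintro rfl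
    obtain ⟨_, i, _, hd⟩ := hr
    have h1 : p - 1 + 1 = p := Nat.sub_add_cancel hp.one_lt.le
    rw [h1] at hd
    have h2 : p ∣ 2 ^ i * p := dvd_mul_left _ _
    have h3 : 1 ≤ 2 ^ i * p := Nat.mul_pos (by positivity) hp.pos
    have h4 := Nat.dvd_sub h2 hd
    have h5 : 2 ^ i * p - (2 ^ i * p - 1) = 1 := by omega
    rw [h5] at h4
    exact hp.one_lt.ne' (Nat.dvd_one.1 h4)
  have h1 := card_le_card h
  rw [card_erase_of_mem (mem_range.2 (by have := hp.pos; omega)), card_range] at h1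
  have := hp.pos
  omega

lemma linF (k q : ℕ) (hk : 2 ≤ k) : LinF (2 ^ k) q (F k) where
  hA := Nat.one_le_two_pow
  bd := by
    intro i L hL
    have hle : ∀ j < k, 2 ^ j ≤ 2 ^ k := fun j hj => Nat.pow_le_pow_right (by norm_num) hj.le
    have habs : ∀ j < k, |(2 : ℤ) ^ j - 1| ≤ ((2 ^ k : ℕ) : ℤ) := by
      intro j hj
      have h1 : (1 : ℤ) ≤ 2 ^ j := one_le_pow₀ (by norm_num)
      have h2 : (2 : ℤ) ^ j ≤ ((2 ^ k : ℕ) : ℤ) := by exact_mod_cast hle j hj
      rw [abs_of_nonneg (by linarith)]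
      linarith
    unfold F FA FB at hL
    split_ifs at hL
    · rw [mem_image] at hL
      obtain ⟨j, hj, rfl⟩ := hL
      rw [mem_range] at hj
      exact ⟨Nat.one_le_two_pow, hle j hj, habs j hj⟩
    · rw [mem_image] at hL
      obtain ⟨j, hj, rfl⟩ := hL
      rw [mem_range] at hj
      refine ⟨Nat.one_le_two_pow, hle j hj, ?_⟩
      rw [abs_neg]
      exact habs j hj
  ne := by
    intro i
    unfold F FA FB
    split_ifs
    · exact ⟨_, mem_image.2 ⟨0, mem_range.2 (by omega), rfl⟩⟩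
    · exact ⟨_, mem_image.2 ⟨0, mem_range.2 (by omega), rfl⟩⟩
  same := by
    intro i p hp hpq
    rw [nuB_F q k i p hp hpq, nuB_F q k 0 p hp hpq]
  adm := by
    intro p hp hpq
    rw [nuB_F q k 0 p hp hpq]
    exact omega_lt k p hp
  tr := by
    intro i j t ht
    left
    refine ⟨(1, 0), ?_, ?_⟩
    · unfold F FA FB
      split_ifs
      · exact mem_image.2 ⟨0, mem_range.2 (by omega), by simp⟩
      · exact mem_image.2 ⟨0, mem_range.2 (by omega), by simp⟩
    · intro L' hL'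
      have ht' : (1 : ℤ) ≤ t := by exact_mod_cast ht
      unfold F FA FB at hL'
      split_ifs at hL'
      · rw [mem_image] at hL'
        obtain ⟨j, hj, rfl⟩ := hL'
        have h1 : (1 : ℤ) ≤ 2 ^ j := one_le_pow₀ (by norm_num)
        push_cast
        nlinarith
      · rw [mem_image] at hL'
        obtain ⟨j, hj, rfl⟩ := hL'
        have h1 : (1 : ℤ) ≤ 2 ^ j := one_le_pow₀ (by norm_num)
        push_cast
        nlinarith

lemma two_dvd {q : ℕ} (h : 6 ∣ q) : 2 ∣ q := (by norm_num : (2 : ℕ) ∣ 6).trans h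
lemma three_dvd {q : ℕ} (h : 6 ∣ q) : 3 ∣ q := (by norm_num : (3 : ℕ) ∣ 6).trans h

lemma first_mod {w k n : ℕ} (hw : 3 ≤ w) (hk : 2 ≤ k) (h : First w k n) : n % 6 = 5 := by
  have h1 : ¬ 2 ∣ n := by
    have := h 0 (by omega) 2 Nat.prime_two (by omega)
    simpa using this
  have h2 : ¬ 3 ∣ n := by
    have := h 0 (by omega) 3 Nat.prime_three hw
    simpa using this
  have h3 : ¬ 3 ∣ 2 ^ 1 * (n + 1) - 1 := h 1 (by omega) 3 Nat.prime_three hw
  have h4 : n % 2 = 1 := by omega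
  have h5 : n % 3 = 2 := by omega
  omega

lemma second_mod {w k n : ℕ} (hw : 3 ≤ w) (hk : 2 ≤ k) (h : Second w k n) : n % 6 = 1 := by
  have h0 := h.1
  have h1 : ¬ 2 ∣ 2 ^ 0 * (n - 1) + 1 := h.2 0 (by omega) 2 Nat.prime_two (by omega)
  have h2 : ¬ 3 ∣ 2 ^ 0 * (n - 1) + 1 := h.2 0 (by omega) 3 Nat.prime_three hw
  have h3 : ¬ 3 ∣ 2 ^ 1 * (n - 1) + 1 := h.2 1 (by omega) 3 Nat.prime_three hw
  have h4 : n % 2 = 1 := by omega
  have h5 : n % 3 = 1 := by omega
  omega

lemma first_RL {w k n : ℕ} : First w k n ↔ ∀ L ∈ FA k, ∀ p : ℕ, p.Prime → p ≤ w → ¬ (p : ℤ) ∣ (L.1 : ℤ) * n + L.2 := by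
  constructor
  · intro h L hL p hp hpw hd
    obtain ⟨i, hi, hd'⟩ := (forA k p n).1 ⟨L, hL, hd⟩
    exact h i hi p hp hpw hd'
  · intro h i hi p hp hpw hd
    obtain ⟨L, hL, hd'⟩ := (forA k p n).2 ⟨i, hi, hd⟩
    exact h L hL p hp hpw hd'

lemma second_RL {w k n : ℕ} (hn : 0 < n) :
    Second w k n ↔ ∀ L ∈ FB k, ∀ p : ℕ, p.Prime → p ≤ w → ¬ (p : ℤ) ∣ (L.1 : ℤ) * n + L.2 := by
  constructor
  · intro h L hL p hp hpw hd
    obtain ⟨i, hi, hd'⟩ := (forB k p n hn).1 ⟨L, hL, hd⟩
    exact h.2 i hi p hp hpw hd'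
  · intro h
    refine ⟨hn, ?_⟩
    intro i hi p hp hpw hd
    obtain ⟨L, hL, hd'⟩ := (forB k p n hn).2 ⟨i, hi, hd⟩
    exact h L hL p hp hpw hd'

lemma chain_iff {w k q : ℕ} (hw : 3 ≤ w) (hk : 2 ≤ k) (h6 : 6 ∣ q) (n : ℕ) : Chain w k n ↔ RL q (F k) w n := by
  have hmod : n % q % 6 = n % 6 := Nat.mod_mod_of_dvd n h6
  unfold RL
  constructor
  · rintro (h | h)
    · have h1 := first_mod hw hk h
      have hF : F k (n % q) = FA k := by
        unfold F
        rw [if_pos (by omega)]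
      rw [hF]
      exact first_RL.1 h
    · have h1 := second_mod hw hk h
      have hF : F k (n % q) = FB k := by
        unfold F
        rw [if_neg (by omega)]
      rw [hF]
      exact (second_RL h.1).1 h
  · intro h
    by_cases h1 : n % 6 = 5
    · have hF : F k (n % q) = FA k := by
        unfold F
        rw [if_pos (by omega)]
      rw [hF] at h
      exact Or.inl (first_RL.2 h)
    · have hF : F k (n % q) = FB k := by
        unfold F
        rw [if_neg (by omega)]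
      rw [hF] at h
      have hn : 0 < n := by
        by_contra hcon
        have h0 : n = 0 := by omega
        subst h0
        refine h (1, 0) ?_ 2 Nat.prime_two (by omega) (by simp)
        unfold FB
        exact mem_image.2 ⟨0, mem_range.2 (by omega), by simp⟩
      exact Or.inr ((second_RL hn).2 h)

lemma cop_iff (q m : ℕ) : Nat.Coprime m q ↔ ∀ p : ℕ, p.Prime → p ∣ q → ¬ p ∣ m := by
  constructor
  · intro h p hp hpq hd
    have h1 := Nat.dvd_gcd hd hpq
    rw [Nat.Coprime] at h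
    rw [h] at h1
    exact hp.one_lt.ne' (Nat.dvd_one.1 h1)
  · intro h
    rw [Nat.coprime_iff_gcd_eq_one]
    by_contra hcon
    obtain ⟨p, hp, hpd⟩ := Nat.exists_prime_and_dvd hcon
    exact h p hp (hpd.trans (Nat.gcd_dvd_right _ _)) (hpd.trans (Nat.gcd_dvd_left _ _))

lemma residues_eq (k q : ℕ) (hk : 2 ≤ k) (h6 : 6 ∣ q) : residues k q = rsL q (F k) := by
  classical
  ext b
  unfold residues rsL
  rw [mem_filter, mem_filter]
  apply and_congr_right
  intro hb
  constructor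
  · rintro (⟨h5, h⟩ | ⟨h5, h⟩) p hp hpq L hL hd
    · unfold F at hL
      rw [if_pos h5] at hL
      obtain ⟨i, hi, hd'⟩ := (forA k p b).1 ⟨L, hL, hd⟩
      exact (cop_iff q _).1 (h i hi) p hp hpq hd'
    · unfold F at hL
      rw [if_neg (by omega)] at hL
      obtain ⟨i, hi, hd'⟩ := (forB k p b (by omega)).1 ⟨L, hL, hd⟩
      exact (cop_iff q _).1 (h i hi) p hp hpq hd'
  · intro h
    by_cases h5 : b % 6 = 5
    · left
      refine ⟨h5, ?_⟩
      intro i hi
      rw [cop_iff]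
      intro p hp hpq hd
      obtain ⟨L, hL, hd'⟩ := (forA k p b).2 ⟨i, hi, hd⟩
      exact h p hp hpq L (by unfold F; rw [if_pos h5]; exact hL) hd'
    · right
      have hb0 : 0 < b := by
        by_contra hcon
        have h0 : b = 0 := by omega
        subst h0
        refine h 2 Nat.prime_two (two_dvd h6) (1, 0) ?_ (by simp)
        unfold F FB
        rw [if_neg (by norm_num)]
        exact mem_image.2 ⟨0, mem_range.2 (by omega), by simp⟩
      have hall : ∀ p : ℕ, p.Prime → p ∣ q → ∀ i < k, ¬ p ∣ 2 ^ i * (b - 1) + 1 := by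
        intro p hp hpq i hi hd
        obtain ⟨L, hL, hd'⟩ := (forB k p b hb0).2 ⟨i, hi, hd⟩
        exact h p hp hpq L (by unfold F; rw [if_neg h5]; exact hL) hd'
      refine ⟨?_, fun i hi => (cop_iff q _).2 (fun p hp hpq => hall p hp hpq i hi)⟩
      have b1 := hall 2 Nat.prime_two (two_dvd h6) 0 (by omega)
      have b2 := hall 3 Nat.prime_three (three_dvd h6) 0 (by omega)
      have b3 := hall 3 Nat.prime_three (three_dvd h6) 1 (by omega)
      have b4 : b % 2 = 1 := by omega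
      have b5 : b % 3 = 1 := by omega
      omega

lemma res6 (k : ℕ) : residues k 6 = {1, 5} := by
  ext b
  unfold residues
  rw [mem_filter, mem_range, mem_insert, mem_singleton]
  constructor
  · rintro ⟨hb, ⟨h5, _⟩ | ⟨h5, _⟩⟩ <;> omega
  · rintro (rfl | rfl)
    · refine ⟨by norm_num, Or.inr ⟨by norm_num, ?_⟩⟩
      intro i _
      simp
    · refine ⟨by norm_num, Or.inl ⟨by norm_num, ?_⟩⟩
      intro i _
      rw [cop_iff]
      intro p hp hpq hd
      have h2 : p ∣ 2 ^ i * (5 + 1) := dvd_mul_of_dvd_right hpq _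
      have h3 : 1 ≤ 2 ^ i * (5 + 1) := Nat.mul_pos (by positivity) (by norm_num)
      have h4 := Nat.dvd_sub h2 hd
      have h5 : 2 ^ i * (5 + 1) - (2 ^ i * (5 + 1) - 1) = 1 := by omega
      rw [h5] at h4
      exact hp.one_lt.ne' (Nat.dvd_one.1 h4)

lemma filter6 (w : ℕ) : (Icc 1 w).filter (fun p => p.Prime ∧ ¬ p ∣ 6) = (Icc 5 w).filter Nat.Prime := by
  ext p
  rw [mem_filter, mem_filter, mem_Icc, mem_Icc]
  constructor
  · rintro ⟨⟨h1, h2⟩, hp, h3⟩
    refine ⟨⟨?_, h2⟩, hp⟩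
    by_contra hcon
    rw [not_le] at hcon
    interval_cases p
    · norm_num at hp
    · exact h3 (by norm_num)
    · exact h3 (by norm_num)
    · norm_num at hp
  · rintro ⟨⟨h1, h2⟩, hp⟩
    refine ⟨⟨by omega, h2⟩, hp, ?_⟩
    intro hd
    have h3 : p ∣ 2 * 3 := by norm_num; exact hd
    rcases hp.dvd_mul.1 h3 with h4 | h4
    · have := Nat.le_of_dvd (by norm_num) h4
      omega
    · have := Nat.le_of_dvd (by norm_num) h4
      omega

lemma density_eq (w k : ℕ) : densityQ w k 6 = density w k := by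
  unfold densityQ density
  rw [res6, filter6]
  have h1 : (({1, 5} : Finset ℕ).card : ℝ) = 2 := by
    have : ({1, 5} : Finset ℕ).card = 2 := by decide
    rw [this]
    norm_num
  rw [h1]
  norm_num

lemma densityQ_eq (w k q : ℕ) : densityQ w k q = ((residues k q).card : ℝ) / q *
    ∏ p ∈ (Icc 1 w).filter (fun p => p.Prime ∧ ¬ p ∣ q), (1 - (nuB (QL q (F k) 0) p : ℝ) / p) := by
  unfold densityQ
  congr 1
  apply prod_congr rfl
  intro p hp
  rw [mem_filter] at hp
  rw [nuB_F q k 0 p hp.2.1 hp.2.2]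

/-- the law for the residues -/
lemma law_res (k q l : ℕ) (hk : 2 ≤ k) (hq : 1 ≤ q) (h6 : 6 ∣ q) (ε : ℝ) (hε : 0 < ε) : ∃ K w₀ : ℕ, ∀ w : ℕ, w₀ ≤ w →
    ∀ Z Y : ℕ, w ^ K ≤ Y → ∀ b s T : ℕ → ℕ, (∀ j ≤ l, b j ∈ residues k q) → (∀ j < l, s j ≤ T j) →
      |(cG (Chain w k) q l b s T Z Y : ℝ) - densityQ w k q * Y / (residues k q).card ^ (l + 1) *
          ∏ j ∈ range l, (Real.exp (-(densityQ w k q * s j)) - Real.exp (-(densityQ w k q * T j)))| ≤
        ε * (densityQ w k q * Y / (residues k q).card ^ (l + 1)) := by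
  obtain ⟨K, y1, hK⟩ := law_lin l hq (linF k q hk) ε hε
  refine ⟨K, max y1 3, ?_⟩
  intro w hw Z Y hY b s T hb hsT
  have hw3 : 3 ≤ w := (le_max_right _ _).trans hw
  rw [residues_eq k q hk h6] at hb
  have hmain := hK w ((le_max_left _ _).trans hw) Z Y hY b s T hb hsT (residues k q).card (densityQ w k q)
    (by rw [residues_eq k q hk h6]) (densityQ_eq w k q)
  have hG : Chain w k = RL q (F k) w := by
    funext m
    exact propext (chain_iff hw3 hk h6 m)
  rw [hG]
  exact hmain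

/-- the law for sets of residues modulo 6 -/
lemma law_set (k l : ℕ) (hk : 2 ≤ k) (ε : ℝ) (hε : 0 < ε) : ∃ K w₀ : ℕ, ∀ w : ℕ, w₀ ≤ w →
    ∀ Z Y : ℕ, w ^ K ≤ Y → ∀ (S : ℕ → Finset ℕ) (s T : ℕ → ℕ), (∀ j ≤ l, S j ⊆ {1, 5}) → (∀ j < l, s j ≤ T j) →
      |(cS (Chain w k) 6 l S s T Z Y : ℝ) - density w k * Y * (∏ j ∈ range (l + 1), ((S j).card : ℝ) / 2) *
          ∏ j ∈ range l, (Real.exp (-(density w k * s j)) - Real.exp (-(density w k * T j)))| ≤
        ε * (density w k * Y) := by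
  have hrs : rsL 6 (F k) = {1, 5} := by rw [← residues_eq k 6 hk dvd_rfl, res6]
  have hc2 : (({1, 5} : Finset ℕ).card : ℝ) = 2 := by
    have : ({1, 5} : Finset ℕ).card = 2 := by decide
    rw [this]
    norm_num
  obtain ⟨K, y1, hK⟩ := law_linS l (by norm_num) (linF k 6 hk) (by rw [hrs]; decide) ε hε
  refine ⟨K, max y1 3, ?_⟩
  intro w hw Z Y hY S s T hS hsT
  have hw3 : 3 ≤ w := (le_max_right _ _).trans hw
  rw [← hrs] at hS
  have hmain := hK w ((le_max_left _ _).trans hw) Z Y hY S s T hS hsT 2 (density w k) (by rw [hrs, hc2])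
    (by
      rw [← density_eq, densityQ_eq, res6, hc2])
  have hG : Chain w k = RL 6 (F k) w := by
    funext m
    exact propext (chain_iff hw3 hk dvd_rfl m)
  rw [hG]
  exact hmain

lemma first_iff {w k n : ℕ} (hw : 3 ≤ w) (hk : 2 ≤ k) (hn : Chain w k n) : First w k n ↔ n % 6 = 5 := by
  constructor
  · exact first_mod hw hk
  · intro h
    rcases hn with h1 | h1
    · exact h1
    · have := second_mod hw hk h1
      omega

lemma not_first_iff {w k n : ℕ} (hw : 3 ≤ w) (hk : 2 ≤ k) (hn : Chain w k n) : ¬ First w k n ↔ n % 6 = 1 := by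
  constructor
  · intro h
    rcases hn with h1 | h1
    · exact absurd h1 h
    · exact second_mod hw hk h1
  · intro h h1
    have := first_mod hw hk h1
    omega

lemma card_pows {G : Type*} [Group G] [DecidableEq G] (u : G) (hu : IsOfFinOrder u) (k : ℕ) :
    ((range k).image (fun i => u ^ i)).card = min k (orderOf u) := by
  rcases le_total k (orderOf u) with h | h
  · rw [min_eq_left h, card_image_of_injOn, card_range]
    intro a ha b hb hab
    rw [Finset.mem_coe, mem_range] at ha hb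
    exact pow_injOn_Iio_orderOf (Set.mem_Iio.2 (by omega)) (Set.mem_Iio.2 (by omega)) hab
  · rw [min_eq_right h]
    have h1 : (range k).image (fun i => u ^ i) = (range (orderOf u)).image (fun i => u ^ i) := by
      ext x
      rw [mem_image, mem_image]
      constructor
      · rintro ⟨i, _, rfl⟩
        exact ⟨i % orderOf u, mem_range.2 (Nat.mod_lt _ hu.orderOf_pos), pow_mod_orderOf u i⟩
      · rintro ⟨i, hi, rfl⟩
        rw [mem_range] at hi
        exact ⟨i, mem_range.2 (by omega), rfl⟩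
    rw [h1, card_image_of_injOn, card_range]
    intro a ha b hb hab
    rw [Finset.mem_coe, mem_range] at ha hb
    exact pow_injOn_Iio_orderOf (Set.mem_Iio.2 ha) (Set.mem_Iio.2 hb) hab

lemma omega_eq (k p : ℕ) (hp : p.Prime) (h2 : p ≠ 2) : omega k p = min k (orderOf (2 : ZMod p)) := by
  classical
  have := Fact.mk hp
  have h2u : (2 : ZMod p) ≠ 0 := by
    intro h
    have h3 : ((2 : ℕ) : ZMod p) = 0 := by exact_mod_cast h
    rw [ZMod.natCast_eq_zero_iff] at h3
    have := (Nat.prime_dvd_prime_iff_eq hp Nat.prime_two).1 h3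
    exact h2 this
  obtain ⟨u, hu⟩ : ∃ u : (ZMod p)ˣ, (u : ZMod p) = 2 := ⟨Units.mk0 2 h2u, rfl⟩
  have ho : orderOf u⁻¹ = orderOf (2 : ZMod p) := by
    rw [orderOf_inv, ← orderOf_units, hu]
  rw [← ho, ← card_pows u⁻¹ (isOfFinOrder_of_finite _) k]
  unfold omega
  have key : ∀ r i : ℕ, p ∣ 2 ^ i * (r + 1) - 1 ↔ ((r : ZMod p) + 1) = ((u⁻¹ ^ i : (ZMod p)ˣ) : ZMod p) := by
    intro r i
    have h3 : 1 ≤ 2 ^ i * (r + 1) := Nat.mul_pos (by positivity) (by omega)
    rw [← ZMod.natCast_eq_zero_iff, Nat.cast_sub h3, sub_eq_zero]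
    push_cast
    rw [inv_pow, ← hu, ← Units.val_pow_eq_pow_val]
    have h5 : ((u ^ i : (ZMod p)ˣ) : ZMod p) ≠ 0 := Units.ne_zero _
    constructor
    · intro h
      field_simp
      rw [mul_comm] at h
      exact h
    · intro h
      rw [h, mul_inv_cancel₀ h5]
  apply Finset.card_nbij' (fun r : ℕ => if h : (r : ZMod p) + 1 ≠ 0 then Units.mk0 ((r : ZMod p) + 1) h else 1)
    (fun v : (ZMod p)ˣ => ((v : ZMod p) - 1).val)
  · intro r hr
    rw [Finset.mem_coe, mem_filter] at hr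
    obtain ⟨_, i, hi, hd⟩ := hr
    rw [key] at hd
    rw [Finset.mem_coe, mem_image]
    refine ⟨i, mem_range.2 hi, ?_⟩
    simp only
    rw [dif_pos (by rw [hd]; exact Units.ne_zero _)]
    apply Units.ext
    rw [Units.val_mk0, hd]
  · intro v hv
    rw [Finset.mem_coe, mem_image] at hv
    obtain ⟨i, hi, rfl⟩ := hv
    rw [Finset.mem_coe, mem_filter, mem_range]
    refine ⟨ZMod.val_lt _, i, mem_range.1 hi, ?_⟩
    rw [key]
    simp
  · intro r hr
    rw [Finset.mem_coe, mem_filter, mem_range] at hr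
    obtain ⟨hr1, i, hi, hd⟩ := hr
    rw [key] at hd
    simp only
    rw [dif_pos (by rw [hd]; exact Units.ne_zero _), Units.val_mk0, add_sub_cancel_right, ZMod.val_natCast,
      Nat.mod_eq_of_lt hr1]
  · intro v hv
    simp only
    have h4 : (((((v : ZMod p) - 1).val : ℕ) : ZMod p) + 1) = v := by simp
    rw [dif_pos (by rw [h4]; exact Units.ne_zero _)]
    apply Units.ext
    rw [Units.val_mk0, h4]

/-- **The kinds of consecutive almost prime Cunningham chains.** -/
theorem result (k : ℕ) (hk : 2 ≤ k) :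
    -- chains of primes
    (∀ w n : ℕ, w < n → (∀ i < k, (2 ^ i * (n + 1) - 1).Prime) → First w k n) ∧
    (∀ w n : ℕ, w < n → (∀ i < k, (2 ^ i * (n - 1) + 1).Prime) → Second w k n) ∧
    -- the members of the chains are almost primes
    (∀ w s n i : ℕ, 0 < n → 2 ^ k * (n + 1) ≤ w ^ s → i < k →
      (First w k n → (2 ^ i * (n + 1) - 1).primeFactorsList.length ≤ s) ∧
      (Second w k n → (2 ^ i * (n - 1) + 1).primeFactorsList.length ≤ s)) ∧
    -- the two kinds exclude each other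
    (∀ w n : ℕ, 3 ≤ w → ¬ (First w k n ∧ Second w k n)) ∧
    -- the law of the kinds and the distances
    (∀ l : ℕ, ∀ ε : ℝ, 0 < ε → ∃ K w₀ : ℕ, ∀ w : ℕ, w₀ ≤ w → ∀ Z Y : ℕ, w ^ K ≤ Y →
      ∀ (σ : ℕ → Bool) (s T : ℕ → ℕ), (∀ j < l, s j ≤ T j) →
        |(kindCount w k l σ s T Z Y : ℝ) - density w k * Y * (1 / 2) ^ (l + 1) *
            ∏ j ∈ range l, (Real.exp (-(density w k * s j)) - Real.exp (-(density w k * T j)))| ≤
          ε * (density w k * Y)) ∧
    -- the law of the residues and the distances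
    (∀ q l : ℕ, 1 ≤ q → 6 ∣ q → ∀ ε : ℝ, 0 < ε → ∃ K w₀ : ℕ, ∀ w : ℕ, w₀ ≤ w →
      ∀ Z Y : ℕ, w ^ K ≤ Y → ∀ b s T : ℕ → ℕ, (∀ j ≤ l, b j ∈ residues k q) → (∀ j < l, s j ≤ T j) →
        |(residueCount w k q l b s T Z Y : ℝ) - densityQ w k q * Y / (residues k q).card ^ (l + 1) *
            ∏ j ∈ range l, (Real.exp (-(densityQ w k q * s j)) - Real.exp (-(densityQ w k q * T j)))| ≤
          ε * (densityQ w k q * Y / (residues k q).card ^ (l + 1))) ∧
    (∀ w : ℕ, densityQ w k 6 = density w k) ∧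
    -- the local densities
    (∀ p : ℕ, p.Prime → p ≠ 2 → omega k p = min k (orderOf (2 : ZMod p))) := by
  refine ⟨?_, ?_, ?_, ?_, ?_, ?_, fun w => density_eq w k, fun p hp h2 => omega_eq k p hp h2⟩
  · intro w n hwn h i hi
    refine prime_rough w _ (lt_of_lt_of_le hwn ?_) (h i hi)
    have h1 : 1 * (n + 1) ≤ 2 ^ i * (n + 1) := Nat.mul_le_mul_right _ Nat.one_le_two_pow
    omega
  · intro w n hwn h
    refine ⟨by omega, ?_⟩
    intro i hi
    refine prime_rough w _ (lt_of_lt_of_le hwn ?_) (h i hi)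
    have h1 : 1 * (n - 1) ≤ 2 ^ i * (n - 1) := Nat.mul_le_mul_right _ Nat.one_le_two_pow
    omega
  · intro w s n i hn hns hi
    have h0 : 2 ^ i ≤ 2 ^ k := Nat.pow_le_pow_right (by norm_num) hi.le
    have h1 : 1 ≤ 2 ^ i := Nat.one_le_two_pow
    have h2 : 2 ^ i * (n + 1) ≤ 2 ^ k * (n + 1) := Nat.mul_le_mul_right _ h0
    have h3 : 1 * (n + 1) ≤ 2 ^ i * (n + 1) := Nat.mul_le_mul_right _ h1
    have h4 : 2 ^ i * (n - 1) ≤ 2 ^ i * (n + 1) := Nat.mul_le_mul_left _ (by omega)
    have h5 : 2 ^ i * (n - 1) + 1 ≤ 2 ^ i * (n + 1) := by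
      have : 2 ^ i * (n + 1) = 2 ^ i * (n - 1) + 2 ^ i * 2 := by
        rw [← Nat.mul_add]
        congr 1
        omega
      omega
    exact ⟨fun h => few w s _ (by omega) (by omega) (h i hi), fun h => few w s _ (by omega) (by omega) (h.2 i hi)⟩
  · rintro w n hw ⟨h1, h2⟩
    have := first_mod hw hk h1
    have := second_mod hw hk h2
    omega
  · intro l ε hε
    obtain ⟨K, w0, hK⟩ := law_set k l hk ε hε
    refine ⟨K, max w0 3, ?_⟩
    intro w hw Z Y hY σ s T hsT
    have hw3 : 3 ≤ w := (le_max_right _ _).trans hw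
    obtain ⟨S, hS⟩ : ∃ S : ℕ → Finset ℕ, S = fun j => if σ j = true then {5} else {1} := ⟨_, rfl⟩
    have hcount : kindCount w k l σ s T Z Y = cS (Chain w k) 6 l S s T Z Y := by
      have := cS_congr (Chain w k) 6 l S (fun j m => (First w k m ↔ σ j = true)) s T Z Y (by
        intro j _ m hm
        rw [hS]
        simp only
        by_cases hσ : σ j = true
        · rw [if_pos hσ, mem_singleton, ← first_iff hw3 hk hm]
          simp [hσ]
        · rw [if_neg hσ, mem_singleton, ← not_first_iff hw3 hk hm]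
          simp [hσ])
      rw [← this]
      rfl
    have hmain := hK w ((le_max_left _ _).trans hw) Z Y hY S s T (by
      intro j _
      rw [hS]
      simp only
      split_ifs <;> simp) hsT
    have hprod : ∏ j ∈ range (l + 1), ((S j).card : ℝ) / 2 = (1 / 2) ^ (l + 1) := by
      rw [prod_congr rfl (g := fun _ => (1 / 2 : ℝ)), prod_const, card_range]
      intro j _
      rw [hS]
      simp only
      split_ifs <;> simp
    rw [hprod] at hmain
    rw [hcount]
    exact hmain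
  · intro q l hq h6 ε hε
    exact law_res k q l hk hq h6 ε hε

end Pool.Agent.Results.MP_c183ae_nt.KindsOfChains
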