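import Mathlib
import Pool.Agent.Y816.PD.Chain

/-!
# Almost prime Cunningham chains of exact length at integers with restricted digits

Let `c_j(n)` be the terms of the chain which starts at `n`: `n, 2 n + 1, 4 n + 3, ...` (first kind) or
`n, 2 n - 1, 4 n - 3, ...` (second kind). The integers `n < b ^ K` have restricted digits in base `b`: the `i`-th digit
belongs to `A i`, where the sets `A i` are arbitrary, only the product of the `|A i|` is at least `exp (- c K) b ^ K`
(for instance one digit may be missing, if the base is large). For every length `k ≥ 1`: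

* if there is no local obstruction at the primes dividing `b`, then a number of these `n` of the right order of
  magnitude `(∏ |A i|) / K ^ k` start a chain of almost primes of length exactly `k`: the `k` first terms have at most
  `r` prime factors each, all of them larger than `n ^ (1 / r)`, and the next term is composite;
* at most a constant times this number of the `n` start a chain of `k` numbers without prime factors up to
  `n ^ (1 / r)`, in particular at most so many start a Cunningham chain of `k` primes.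

Both are proved in the starting library (`Pool.Agent.Y816.PD.exact_chain`), where they are not handed in.
-/

set_option autoImplicit false

namespace Pool.Agent.Results.MP_c183ae_nt.RestrictedDigitChains

open Finset Filter

/-- The `n < b ^ K` whose `i`-th digit in base `b` (the digit of the units for `i = 0`) belongs to `A i` for all
`i < K`. -/
def Digits (b K : ℕ) (A : ℕ → Finset ℕ) : Set ℕ := {n | n < b ^ K ∧ ∀ i < K, n / b ^ i % b ∈ A i}

/-- All prime factors of `m` are larger than `n ^ (1 / r)`. -/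
def Rough (n r m : ℕ) : Prop := ∀ p : ℕ, p.Prime → p ∣ m → (n : ℝ) ^ (1 / (r : ℝ)) < (p : ℝ)

/-- **Almost prime Cunningham chains of exact length at integers with restricted digits.** -/
theorem result (c : ℕ → ℕ → ℕ)
    (hc : (∀ j n, c j n = 2 ^ j * (n + 1) - 1) ∨ (∀ j n, c j n = 2 ^ j * (n - 1) + 1)) (k : ℕ) (hk : 1 ≤ k) :
    ∃ c₀ : ℝ, 0 < c₀ ∧ ∃ r₀ : ℕ, 2 ≤ r₀ ∧ ∀ r : ℕ, r₀ ≤ r → ∀ b : ℕ, 2 ≤ b → ∃ κ C : ℝ, 0 < κ ∧ 0 < C ∧
      ∀ᶠ K : ℕ in atTop, ∀ A : ℕ → Finset ℕ, (∀ i < K, A i ⊆ range b) →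
        (b : ℝ) ^ K ≤ Real.exp (c₀ * K) * ∏ i ∈ range K, ((A i).card : ℝ) →
        ((∃ d ∈ A 0, ∀ j < k, (c j (d + b)).Coprime b) →
          κ * (∏ i ∈ range K, ((A i).card : ℝ)) / (K : ℝ) ^ k ≤
            ({n | n ∈ Digits b K A ∧ (∀ j < k, Rough n r (c j n) ∧ (c j n).primeFactorsList.length ≤ r) ∧
              1 < c k n ∧ ¬ (c k n).Prime}.ncard : ℝ)) ∧
        ({n | n ∈ Digits b K A ∧ ∀ j < k, Rough n r (c j n)}.ncard : ℝ) ≤
          C * (∏ i ∈ range K, ((A i).card : ℝ)) / (K : ℝ) ^ k := by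
  classical
  obtain ⟨c₀, hc₀, r₀, hr₀, h⟩ := Pool.Agent.Y816.PD.exact_chain c hc k hk
  refine ⟨c₀, hc₀, r₀, hr₀, fun r hr b hb => ?_⟩
  obtain ⟨κ, C, hκ, hC, h1⟩ := h r hr b hb
  refine ⟨κ, C, hκ, hC, ?_⟩
  have hcard : ∀ (K : ℕ) (A : ℕ → Finset ℕ) (S : Set ℕ),
      Pool.Agent.Y816.PD.ND b K A S = {n | n ∈ Digits b K A ∧ n ∈ S}.ncard := by
    intro K A S
    unfold Pool.Agent.Y816.PD.ND Digits
    rw [← Set.ncard_coe_finset]
    congr 1
    ext n
    simp only [coe_filter, mem_range, Set.mem_ofPred_eq]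
    tauto
  filter_upwards [h1] with K hK A hA hprod
  obtain ⟨h2, h3⟩ := hK A hA hprod
  rw [hcard] at h2 h3
  refine ⟨fun hd => (h2 hd).trans (le_of_eq ?_), le_trans (le_of_eq ?_) h3⟩
  · congr 2
    ext n
    simp only [Set.mem_ofPred_eq, Rough]
    constructor
    · rintro ⟨a1, ⟨a2, a3⟩, a4⟩
      exact ⟨a1, fun j hj => ⟨a2 j hj, a3 j hj⟩, a4⟩
    · rintro ⟨a1, a2, a4⟩
      exact ⟨a1, ⟨fun j hj => (a2 j hj).1, fun j hj => (a2 j hj).2⟩, a4⟩
  · rfl

end Pool.Agent.Results.MP_c183ae_nt.RestrictedDigitChains
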